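import Pool.Agent.helper50.PHN.Spec

/-!
# Row C2B: blocks, integers with many prime factors
-/

set_option autoImplicit false

namespace Pool.Agent.PHN

open Finset

lemma C2B_lp {m : ℕ} (h : 2 ≤ lp m) : (lp m).Prime ∧ lp m ∣ m := by
  unfold lp at h ⊢
  by_cases he : m.primeFactors = ∅
  · rw [he, Finset.sup_empty] at h
    simp at h
  · obtain ⟨p, hp, hps⟩ := Finset.exists_mem_eq_sup m.primeFactors (Finset.nonempty_iff_ne_empty.2 he) id
    rw [hps]
    exact ⟨Nat.prime_of_mem_primeFactors hp, Nat.dvd_of_mem_primeFactors hp⟩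

lemma C2B_sum (k : ℕ) : ∑ q ∈ Ico ((2 : ℕ) ^ k) (2 ^ (k + 1)), 1 / (q : ℝ) ≤ 1 := by
  have h2 : (0 : ℝ) < 2 ^ k := by positivity
  calc ∑ q ∈ Ico ((2 : ℕ) ^ k) (2 ^ (k + 1)), 1 / (q : ℝ)
      ≤ ∑ q ∈ Ico ((2 : ℕ) ^ k) (2 ^ (k + 1)), 1 / (2 : ℝ) ^ k := by
        apply Finset.sum_le_sum
        intro q hq
        have h1 : ((2 ^ k : ℕ) : ℝ) ≤ (q : ℝ) := by exact_mod_cast (Finset.mem_Ico.1 hq).1
        push_cast at h1
        exact one_div_le_one_div_of_le h2 h1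
    _ = 1 := by
        rw [Finset.sum_const, Nat.card_Ico, nsmul_eq_mul]
        have h3 : 2 ^ (k + 1) - 2 ^ k = 2 ^ k := by rw [pow_succ]; omega
        rw [h3]
        push_cast
        field_simp

theorem C2B (hC2I : C2I_stmt) (hGBB : GBB_stmt) (hNUM : NUM_stmt) : C2B_stmt := by
  obtain ⟨k1, h1⟩ := hGBB
  obtain ⟨k2, h2⟩ := hNUM
  refine ⟨max (max k1 k2) 1, fun k hk q0 F hF => ?_⟩
  have hk1 : k1 ≤ k := le_trans (le_max_left _ _) (le_trans (le_max_left _ _) hk)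
  have hk2 : k2 ≤ k := le_trans (le_max_right _ _) (le_trans (le_max_left _ _) hk)
  have hk3 : 1 ≤ k := le_trans (le_max_right _ _) hk
  have hlogY : Real.log (YY k) = ((k : ℝ) + 1) ^ 8 := by unfold YY; exact Real.log_exp _
  have hY1 : (1 : ℝ) ≤ YY k := by unfold YY; exact Real.one_le_exp (by positivity)
  set R : ℝ := (RR k : ℝ) with hR
  have hterm : ∀ n ∈ F, gg dl q0 n.totient / n.totient ≤
      (2 : ℝ) ^ (-(R / 2)) * ((2 : ℝ) ^ n.primeFactors.card / n.totient) := by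
    intro n hn
    obtain ⟨hn1, -, hnY, hnR⟩ := hF n hn
    have ht : 1 ≤ n.totient := Nat.totient_pos.2 hn1
    have htn : (n.totient : ℝ) ≤ YY k := le_trans (by exact_mod_cast Nat.totient_le n) hnY
    have hg : gg dl q0 n.totient ≤ (2 : ℝ) ^ (R / 2) := (h1 k hk1 q0 n.totient ht).1 htn
    have h3 : (2 : ℝ) ^ R ≤ (2 : ℝ) ^ n.primeFactors.card := by
      rw [← Real.rpow_natCast]
      apply Real.rpow_le_rpow_of_exponent_le (by norm_num)
      rw [hR]
      exact_mod_cast hnR.le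
    have h4 : (2 : ℝ) ^ (R / 2) = (2 : ℝ) ^ (-(R / 2)) * (2 : ℝ) ^ R := by
      rw [← Real.rpow_add (by norm_num)]
      ring_nf
    have h5 : gg dl q0 n.totient ≤ (2 : ℝ) ^ (-(R / 2)) * (2 : ℝ) ^ n.primeFactors.card := by
      refine hg.trans ?_
      rw [h4]
      exact mul_le_mul_of_nonneg_left h3 (by positivity)
    rw [← mul_div_assoc]
    exact div_le_div_of_nonneg_right h5 (by positivity)
  have hlp : ∀ n ∈ F, (lp n.totient).Prime ∧ lp n.totient ∣ n.totient ∧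
      lp n.totient ∈ Ico ((2 : ℕ) ^ k) (2 ^ (k + 1)) := by
    intro n hn
    obtain ⟨hn1, hbl, -, -⟩ := hF n hn
    unfold bl at hbl
    have h0 : lp n.totient ≠ 0 := by
      intro h0
      rw [h0, Nat.log_zero_right] at hbl
      omega
    have h3 := Nat.pow_log_le_self 2 h0
    have h4 := Nat.lt_pow_succ_log_self (b := 2) (by norm_num) (lp n.totient)
    rw [hbl] at h3 h4
    have h5 : 2 ≤ lp n.totient := by
      calc 2 = 2 ^ 1 := rfl
        _ ≤ 2 ^ k := Nat.pow_le_pow_right (by norm_num) hk3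
        _ ≤ _ := h3
    exact ⟨(C2B_lp h5).1, (C2B_lp h5).2, Finset.mem_Ico.2 ⟨h3, h4⟩⟩
  have hfib : ∑ n ∈ F, (2 : ℝ) ^ n.primeFactors.card / n.totient =
      ∑ q ∈ Ico ((2 : ℕ) ^ k) (2 ^ (k + 1)), ∑ n ∈ F.filter (fun n => lp n.totient = q),
        (2 : ℝ) ^ n.primeFactors.card / n.totient :=
    (Finset.sum_fiberwise_of_maps_to (fun n hn => (hlp n hn).2.2) _).symm
  have hq : ∀ q ∈ Ico ((2 : ℕ) ^ k) (2 ^ (k + 1)), ∑ n ∈ F.filter (fun n => lp n.totient = q),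
        (2 : ℝ) ^ n.primeFactors.card / n.totient ≤ 4 * (1 + ((k : ℝ) + 1) ^ 8) ^ 5 * (1 / q) := by
    intro q _
    by_cases hqp : q.Prime
    · have h3 := hC2I (YY k) q (F.filter fun n => lp n.totient = q) hY1 hqp (by
        intro n hn
        obtain ⟨hn1, hn2⟩ := Finset.mem_filter.1 hn
        refine ⟨(hF n hn1).1, (hF n hn1).2.2.1, ?_⟩
        rw [← hn2]
        exact (hlp n hn1).2.1)
      rw [hlogY] at h3
      rw [mul_one_div]
      exact h3
    · have h3 : F.filter (fun n => lp n.totient = q) = ∅ := by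
        apply Finset.filter_false_of_mem
        intro n hn h4
        exact hqp (h4 ▸ (hlp n hn).1)
      rw [h3, Finset.sum_empty]
      positivity
  have hS : ∑ n ∈ F, (2 : ℝ) ^ n.primeFactors.card / n.totient ≤ 4 * (1 + ((k : ℝ) + 1) ^ 8) ^ 5 := by
    rw [hfib]
    calc ∑ q ∈ Ico ((2 : ℕ) ^ k) (2 ^ (k + 1)), ∑ n ∈ F.filter (fun n => lp n.totient = q),
          (2 : ℝ) ^ n.primeFactors.card / n.totient
        ≤ ∑ q ∈ Ico ((2 : ℕ) ^ k) (2 ^ (k + 1)), 4 * (1 + ((k : ℝ) + 1) ^ 8) ^ 5 * (1 / q) :=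
          Finset.sum_le_sum hq
      _ = 4 * (1 + ((k : ℝ) + 1) ^ 8) ^ 5 * ∑ q ∈ Ico ((2 : ℕ) ^ k) (2 ^ (k + 1)), 1 / (q : ℝ) := by
          rw [Finset.mul_sum]
      _ ≤ 4 * (1 + ((k : ℝ) + 1) ^ 8) ^ 5 * 1 :=
          mul_le_mul_of_nonneg_left (C2B_sum k) (by positivity)
      _ = _ := mul_one _
  have hN := (h2 k hk2).2
  calc ∑ n ∈ F, gg dl q0 n.totient / n.totient
      ≤ ∑ n ∈ F, (2 : ℝ) ^ (-(R / 2)) * ((2 : ℝ) ^ n.primeFactors.card / n.totient) :=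
        Finset.sum_le_sum hterm
    _ = (2 : ℝ) ^ (-(R / 2)) * ∑ n ∈ F, (2 : ℝ) ^ n.primeFactors.card / n.totient := by
        rw [Finset.mul_sum]
    _ ≤ (2 : ℝ) ^ (-(R / 2)) * (4 * (1 + ((k : ℝ) + 1) ^ 8) ^ 5) :=
        mul_le_mul_of_nonneg_left hS (by positivity)
    _ ≤ 1 / ((k : ℝ) + 1) ^ 2 := by
        rw [le_div_iff₀ (by positivity), Real.rpow_neg (by norm_num), inv_mul_eq_div, div_mul_eq_mul_div,
          div_le_one (by positivity)]
        exact hN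

end Pool.Agent.PHN
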